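import Mathlib
import Pool.Agent.Helper934.AnnC2

/-!
Removing a small enough disc from the interior of the unit disc of the plane does not help to cover
it with planks: the widths still add up to at least 2.
-/

open MeasureTheory Set Metric

namespace Pool.Agent.Results.MP_4a0204_co.Annulus

/-- The Euclidean plane. -/
abbrev E2 := EuclideanSpace ℝ (Fin 2)

/-- `IsPlank P w`: the set `P` is a plank of width `w`, i.e. the closed region between the two
distinct parallel lines `x · u = a` and `x · u = a + w`, where `u` is a unit vector and `w > 0`. -/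
def IsPlank (P : Set E2) (w : ℝ) : Prop :=
  0 < w ∧ ∃ (u : E2) (a : ℝ), ‖u‖ = 1 ∧ P = {x : E2 | a ≤ inner ℝ x u ∧ inner ℝ x u ≤ a + w}

lemma norm_sq_two (x : E2) : ‖x‖ ^ 2 = x 0 ^ 2 + x 1 ^ 2 := by
  rw [EuclideanSpace.norm_sq_eq, Fin.sum_univ_two]
  simp

lemma inner_two (x u : E2) : inner ℝ x u = x 0 * u 0 + x 1 * u 1 := by
  rw [PiLp.inner_apply, Fin.sum_univ_two]
  simp [mul_comm]

/-- Every hole in the interior of the unit disc can be moved on the vertical axis. -/
lemma hole (c : E2) (ε : ℝ) (hε : 0 < ε) (h : closedBall c ε ⊆ interior (closedBall (0 : E2) 1)) :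
    ∃ (p q : ℝ), p ^ 2 + q ^ 2 = 1 ∧ c 0 = -(‖c‖ * p) ∧ c 1 = -(‖c‖ * q) ∧ ‖c‖ + ε < 1 := by
  rw [interior_closedBall _ one_ne_zero] at h
  by_cases hc : c = 0
  · subst hc
    refine ⟨1, 0, by norm_num, by simp, by simp, ?_⟩
    have h1 : (EuclideanSpace.single (0 : Fin 2) ε : E2) ∈ ball (0 : E2) 1 := by
      apply h
      rw [mem_closedBall, dist_zero_right, PiLp.norm_single, Real.norm_eq_abs,
        abs_of_pos hε]
    rw [mem_ball, dist_zero_right, PiLp.norm_single, Real.norm_eq_abs,
      abs_of_pos hε] at h1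
    rw [norm_zero]
    linarith
  · have hn : 0 < ‖c‖ := norm_pos_iff.mpr hc
    refine ⟨-(c 0 / ‖c‖), -(c 1 / ‖c‖), ?_, ?_, ?_, ?_⟩
    · have := norm_sq_two c
      field_simp
      linarith
    · field_simp
    · field_simp
    · have h1 : c + (ε / ‖c‖) • c ∈ ball (0 : E2) 1 := by
        apply h
        rw [mem_closedBall, dist_eq_norm, add_sub_cancel_left, norm_smul, Real.norm_eq_abs,
          abs_of_pos (by positivity)]
        exact le_of_eq (by field_simp)
      rw [mem_ball, dist_zero_right] at h1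
      have h2 : c + (ε / ‖c‖) • c = (1 + ε / ‖c‖) • c := by rw [add_smul, one_smul]
      rw [h2, norm_smul, Real.norm_eq_abs, abs_of_pos (by positivity)] at h1
      have h3 : (1 + ε / ‖c‖) * ‖c‖ = ‖c‖ + ε := by field_simp
      linarith

/-- There is `ε₀ > 0` such that, for every `0 < ε ≤ ε₀` and every closed disc of radius `ε` in the
interior of the closed unit disc, finitely many planks covering the unit disc without that disc have
widths adding up to at least 2. -/
theorem result : ∃ ε₀ : ℝ, 0 < ε₀ ∧ ε₀ < 1 ∧ ∀ ε : ℝ, 0 < ε → ε ≤ ε₀ → ∀ c : E2,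
    closedBall c ε ⊆ interior (closedBall (0 : E2) 1) →
    ∀ (n : ℕ) (P : Fin n → Set E2) (w : Fin n → ℝ), (∀ i, IsPlank (P i) (w i)) →
      closedBall (0 : E2) 1 \ closedBall c ε ⊆ ⋃ i, P i → 2 ≤ ∑ i, w i := by
  obtain ⟨ε1, hε1, hB⟩ := Pool.Agent.Helper934.Ann.stageB
  refine ⟨min ε1 (1 / 20), by positivity, lt_of_le_of_lt (min_le_right _ _) (by norm_num), ?_⟩
  intro ε hε hεε c hc n P w hP hcov
  have hεa : ε ≤ ε1 := hεε.trans (min_le_left _ _)
  have hεb : ε ≤ 1 / 20 := hεε.trans (min_le_right _ _)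
  obtain ⟨p, q, hpq, hc0, hc1, hcε⟩ := hole c ε hε hc
  by_contra hlt
  push Not at hlt
  have hw : ∀ i, 0 < w i := fun i => (hP i).1
  choose u a hu hPu using fun i => (hP i).2
  have hu2 : ∀ i, (u i 0) ^ 2 + (u i 1) ^ 2 = 1 := by
    intro i
    rw [← norm_sq_two, hu i]
    norm_num
  have hnorm : ∀ i, (u i 0 * q - u i 1 * p) ^ 2 + (u i 0 * p + u i 1 * q) ^ 2 = 1 := by
    intro i
    have h1 : (u i 0 * q - u i 1 * p) ^ 2 + (u i 0 * p + u i 1 * q) ^ 2 =
        ((u i 0) ^ 2 + (u i 1) ^ 2) * (p ^ 2 + q ^ 2) := by ring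
    rw [h1, hu2 i, hpq, one_mul]
  let F : Pool.Agent.Helper934.Ann.Fam n :=
    { a := fun i => u i 0 * q - u i 1 * p
      b := fun i => u i 0 * p + u i 1 * q
      c := fun i => a i + w i / 2 + (u i 0 * p + u i 1 * q)
      d := fun i => w i / 2
      nz := fun i => by
        rw [hnorm i]
        exact one_pos
      dn := fun i => by
        have := hw i
        positivity }
  have hnn := norm_nonneg c
  let C : Pool.Agent.Helper934.Ann.Cfg n :=
    { F := F
      η := 1 - ‖c‖
      ε := ε
      hε := hε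
      hηε := by linarith
      hη := by linarith
      hcov := by
        intro x y h1 h2
        set z : E2 := !₂[x * q + (y - 1) * p, -(x * p) + (y - 1) * q] with hz
        have z0 : z 0 = x * q + (y - 1) * p := by simp [hz]
        have z1 : z 1 = -(x * p) + (y - 1) * q := by simp [hz]
        have hz1 : z ∈ closedBall (0 : E2) 1 := by
          rw [mem_closedBall, dist_zero_right]
          have h3 : ‖z‖ ^ 2 ≤ 1 := by
            rw [norm_sq_two, z0, z1]
            have h4 : (x * q + (y - 1) * p) ^ 2 + (-(x * p) + (y - 1) * q) ^ 2 =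
                (x ^ 2 + (y - 1) ^ 2) * (p ^ 2 + q ^ 2) := by ring
            rw [h4, hpq]
            linarith
          nlinarith [norm_nonneg z]
        have hz2 : z ∉ closedBall c ε := by
          rw [mem_closedBall, dist_eq_norm]
          intro h3
          have h4 : ‖z - c‖ ^ 2 ≤ ε ^ 2 := by
            have := norm_nonneg (z - c)
            gcongr
          rw [norm_sq_two] at h4
          have h5 : (z - c) 0 = x * q + (y - (1 - ‖c‖)) * p := by
            rw [PiLp.sub_apply, z0, hc0]
            ring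
          have h6 : (z - c) 1 = -(x * p) + (y - (1 - ‖c‖)) * q := by
            rw [PiLp.sub_apply, z1, hc1]
            ring
          rw [h5, h6] at h4
          have h7 : (x * q + (y - (1 - ‖c‖)) * p) ^ 2 + (-(x * p) + (y - (1 - ‖c‖)) * q) ^ 2 =
              (x ^ 2 + (y - (1 - ‖c‖)) ^ 2) * (p ^ 2 + q ^ 2) := by ring
          rw [h7, hpq] at h4
          linarith
        obtain ⟨i, hi⟩ := mem_iUnion.mp (hcov ⟨hz1, hz2⟩)
        rw [hPu i] at hi
        obtain ⟨h8, h9⟩ := hi
        rw [inner_two, z0, z1] at h8 h9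
        refine ⟨i, ?_⟩
        change |(u i 0 * q - u i 1 * p) * x + (u i 0 * p + u i 1 * q) * y -
          (a i + w i / 2 + (u i 0 * p + u i 1 * q))| ≤ w i / 2
        rw [abs_le]
        constructor <;> linarith }
  have hnm : ∀ i, F.nm i = 1 := by
    intro i
    change √((u i 0 * q - u i 1 * p) ^ 2 + (u i 0 * p + u i 1 * q) ^ 2) = 1
    rw [hnorm i, Real.sqrt_one]
  have hsum : ∑ i, 2 * C.F.d i / C.F.nm i < 2 := by
    have h1 : ∀ i, 2 * C.F.d i / C.F.nm i = w i := by
      intro i
      change 2 * (w i / 2) / F.nm i = w i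
      rw [hnm i]
      ring
    rw [Finset.sum_congr rfl (fun i _ => h1 i)]
    exact hlt
  obtain ⟨k, g, hg, hP1, hP2⟩ := Pool.Agent.Helper934.Ann.stageA C hεb hsum
  exact hB n C hεa k g hg hP1 hP2

end Pool.Agent.Results.MP_4a0204_co.Annulus
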